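import Pool.Agent.Q108.UI.Unif

set_option autoImplicit false
open Filter Topology Metric Set MeasureTheory

namespace Pool.Agent.Q108.UI

/-- the unit data -/
lemma unit_fun {a : ℕ → ℂ} {p : ℕ → ℕ} {C B : ℝ}
    (h : ∀ y : Arr, ‖y‖ ≤ 1 → ∃ g : ℂ → ℂ, Differentiable ℂ g ∧
      (∀ z, ‖g z‖ ≤ C * Real.exp (B * rho z)) ∧ Interp a p g y) (n κ : ℕ) :
    ∃ g : ℂ → ℂ, Differentiable ℂ g ∧ (∀ z, ‖g z‖ ≤ C * Real.exp (B * rho z)) ∧
      ∀ m, ∀ j < p m, iteratedDeriv j g (a m) = if m = n ∧ j = κ then (j.factorial : ℂ) else 0 := by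
  classical
  let f : ℕ × ℕ → ℂ := fun q => if q = (n, κ) then 1 else 0
  have hf1 : ∀ q, ‖f q‖ ≤ 1 := by
    intro q
    simp only [f]
    split_ifs <;> simp
  have hf : Memℓp f ⊤ := memℓp_infty ⟨1, by rintro _ ⟨q, rfl⟩; exact hf1 q⟩
  obtain ⟨g, hg, hb, hi⟩ := h ⟨f, hf⟩ (lp.norm_le_of_forall_le zero_le_one hf1)
  refine ⟨g, hg, hb, fun m j hj => ?_⟩
  have h1 := hi m j hj
  have hj0 : (j.factorial : ℂ) ≠ 0 := by exact_mod_cast j.factorial_ne_zero
  rw [div_eq_iff hj0] at h1
  rw [h1]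
  have h2 : ((⟨f, hf⟩ : Arr) : ℕ × ℕ → ℂ) (m, j) = f (m, j) := rfl
  rw [h2]
  simp only [f, Prod.mk.injEq]
  split_ifs <;> simp

/-- separation -/
lemma separation {a : ℕ → ℂ} {C B : ℝ} (hC : 0 < C) (hB : 0 < B) {u : ℂ → ℂ}
    (hu : Differentiable ℂ u) (hb : ∀ z, ‖u z‖ ≤ C * Real.exp (B * rho z)) {n m : ℕ}
    (h1 : u (a n) = 1) (h0 : u (a m) = 0) :
    (2 * C * Real.exp (3 * B) * Real.exp (B * rho (a n)))⁻¹ ≤ dist (a m) (a n) := by
  set K := 2 * C * Real.exp (3 * B) * Real.exp (B * rho (a n)) with hK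
  have hKpos : 0 < K := by positivity
  have hK1 : 1 ≤ K := by
    have h2 := hb (a n)
    rw [h1, norm_one] at h2
    have h3 : 1 ≤ Real.exp (3 * B) := Real.one_le_exp (by positivity)
    have h4 : 0 < C * Real.exp (B * rho (a n)) := by positivity
    rw [hK]
    nlinarith
  by_cases hd : dist (a m) (a n) < 1
  · have hmaps : MapsTo u (ball (a n) 1) (closedBall (u (a n)) K) := by
      intro z hz
      rw [mem_ball, dist_eq_norm] at hz
      rw [mem_closedBall, dist_eq_norm]
      have hz2 := rho_near (z := a n) (w := z) hz.le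
      have e1 : ‖u z‖ ≤ C * (Real.exp (3 * B) * Real.exp (B * rho (a n))) := by
        refine (hb z).trans ?_
        rw [← Real.exp_add]
        gcongr
        nlinarith
      have e2 : ‖u (a n)‖ ≤ C * (Real.exp (3 * B) * Real.exp (B * rho (a n))) := by
        refine (hb (a n)).trans ?_
        rw [← Real.exp_add]
        gcongr
        nlinarith
      calc ‖u z - u (a n)‖ ≤ ‖u z‖ + ‖u (a n)‖ := norm_sub_le _ _
        _ ≤ K := by rw [hK]; linarith
    have h2 := Complex.dist_le_div_mul_dist_of_mapsTo_ball hu.differentiableOn hmaps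
      (z := a m) (by rwa [mem_ball])
    rw [h0, h1, div_one, dist_zero_left, norm_one] at h2
    rw [inv_le_iff_one_le_mul₀ hKpos]
    linarith
  · push Not at hd
    exact (inv_le_one_of_one_le₀ hK1).trans hd

/-- summability from disjoint balls -/
lemma summable_of_sep {a : ℕ → ℂ} {δ : ℕ → ℝ} (hδ : ∀ n, 0 < δ n) (hδ1 : ∀ n, δ n ≤ 1)
    (hsep : ∀ n m, n ≠ m → δ n ≤ dist (a m) (a n)) :
    Summable fun n => δ n ^ 2 * ((2 + ‖a n‖) ^ 3)⁻¹ := by
  have hint : Integrable (fun z : ℂ => (1 + ‖z‖) ^ (-(3 : ℝ))) volume :=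
    integrable_one_add_norm (by rw [Complex.finrank_real_complex]; norm_num)
  set ν : Measure ℂ := volume.withDensity (fun z => ENNReal.ofReal ((1 + ‖z‖) ^ (-(3 : ℝ)))) with hν
  have hfin : ν univ < ⊤ := by
    rw [hν, withDensity_apply _ MeasurableSet.univ, Measure.restrict_univ]
    exact (hasFiniteIntegral_iff_ofReal (Eventually.of_forall fun z => by positivity)).mp hint.2
  have hdisj : Pairwise (Function.onFun Disjoint fun n => ball (a n) (δ n / 2)) := by
    intro n m hnm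
    apply ball_disjoint_ball
    have h1 := hsep n m hnm
    have h2 := hsep m n hnm.symm
    rw [dist_comm] at h1
    linarith
  have hsum : ∑' n, ν (ball (a n) (δ n / 2)) ≤ ν univ := by
    rw [← measure_iUnion hdisj (fun n => measurableSet_ball)]
    exact measure_mono (subset_univ _)
  have hlow : ∀ n, ENNReal.ofReal (Real.pi / 4 * (δ n ^ 2 * ((2 + ‖a n‖) ^ 3)⁻¹)) ≤
      ν (ball (a n) (δ n / 2)) := by
    intro n
    rw [hν, withDensity_apply _ measurableSet_ball]
    have h1 : ∀ z ∈ ball (a n) (δ n / 2), ENNReal.ofReal (((2 + ‖a n‖) ^ 3)⁻¹) ≤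
        ENNReal.ofReal ((1 + ‖z‖) ^ (-(3 : ℝ))) := by
      intro z hz
      apply ENNReal.ofReal_le_ofReal
      rw [mem_ball, dist_eq_norm] at hz
      have h2 : ‖z‖ ≤ ‖a n‖ + 1 := by
        calc ‖z‖ = ‖a n + (z - a n)‖ := by congr 1; ring
          _ ≤ ‖a n‖ + ‖z - a n‖ := norm_add_le _ _
          _ ≤ _ := by have := hδ1 n; linarith
      rw [Real.rpow_neg (by positivity)]
      have h3 : (1 + ‖z‖) ^ (3 : ℝ) = (1 + ‖z‖) ^ (3 : ℕ) := by
        rw [← Real.rpow_natCast]; norm_num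
      rw [h3]
      apply inv_anti₀ (by positivity)
      have h4 : 1 + ‖z‖ ≤ 2 + ‖a n‖ := by linarith
      exact pow_le_pow_left₀ (by positivity) h4 3
    calc ENNReal.ofReal (Real.pi / 4 * (δ n ^ 2 * ((2 + ‖a n‖) ^ 3)⁻¹))
        = ENNReal.ofReal (((2 + ‖a n‖) ^ 3)⁻¹) * volume (ball (a n) (δ n / 2)) := by
          rw [Complex.volume_ball]
          have e1 : ENNReal.ofReal (δ n / 2) ^ 2 = ENNReal.ofReal ((δ n / 2) ^ 2) := by
            rw [ENNReal.ofReal_pow (by have := hδ n; positivity)]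
          have e2 : (NNReal.pi : ENNReal) = ENNReal.ofReal Real.pi := by
            rw [← NNReal.coe_real_pi, ENNReal.ofReal_coe_nnreal]
          rw [e1, e2, ← ENNReal.ofReal_mul (by positivity), ← ENNReal.ofReal_mul (by positivity)]
          congr 1; ring
      _ = ∫⁻ _ in ball (a n) (δ n / 2), ENNReal.ofReal (((2 + ‖a n‖) ^ 3)⁻¹) := by
          rw [setLIntegral_const]
      _ ≤ ∫⁻ z in ball (a n) (δ n / 2), ENNReal.ofReal ((1 + ‖z‖) ^ (-(3 : ℝ))) :=
          setLIntegral_mono' measurableSet_ball h1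
  have htot : ∑' n, ENNReal.ofReal (Real.pi / 4 * (δ n ^ 2 * ((2 + ‖a n‖) ^ 3)⁻¹)) ≠ ⊤ :=
    ne_top_of_le_ne_top hfin.ne ((ENNReal.tsum_le_tsum hlow).trans hsum)
  have hs : Summable fun n => Real.pi / 4 * (δ n ^ 2 * ((2 + ‖a n‖) ^ 3)⁻¹) := by
    have h1 := ENNReal.summable_toReal htot
    refine h1.congr fun n => ?_
    rw [ENNReal.toReal_ofReal (by have := Real.pi_pos; positivity)]
  have hpi : Real.pi / 4 ≠ 0 := by have := Real.pi_pos; positivity
  exact (summable_mul_left_iff hpi).mp hs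

/-- the derivatives of the building blocks -/
lemma block {a : ℕ → ℂ} {p : ℕ → ℕ} (hp : ∀ n, 1 ≤ p n) {n : ℕ} {u g : ℂ → ℂ}
    (hu : Differentiable ℂ u) (hg : Differentiable ℂ g)
    (hud : ∀ m, ∀ j < p m, iteratedDeriv j u (a m) = if m = n ∧ j = 0 then (j.factorial : ℂ) else 0)
    (hgd : ∀ m, ∀ j < p m, iteratedDeriv j g (a m) =
      if m = n ∧ j = p n - 1 then (j.factorial : ℂ) else 0) :
    (∀ m, m ≠ n → ∀ j ≤ p m, iteratedDeriv j (((fun z => z - a n) * u) * g) (a m) = 0) ∧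
    (∀ j < p n, iteratedDeriv j (((fun z => z - a n) * u) * g) (a n) = 0) ∧
    iteratedDeriv (p n) (((fun z => z - a n) * u) * g) (a n) = ((p n).factorial : ℂ) := by
  have hl : Differentiable ℂ (fun z : ℂ => z - a n) := by fun_prop
  have hv : Differentiable ℂ ((fun z : ℂ => z - a n) * u) := hl.mul hu
  have hvm : ∀ m, m ≠ n → ∀ i < p m, iteratedDeriv i ((fun z => z - a n) * u) (a m) = 0 := by
    intro m hm i hi
    rw [iteratedDeriv_mul hl.contDiff.contDiffAt hu.contDiff.contDiffAt]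
    apply Finset.sum_eq_zero
    intro l hl'
    rw [hud m (i - l) (by omega), if_neg (by tauto), mul_zero]
  have hv0 : iteratedDeriv 0 ((fun z => z - a n) * u) (a n) = 0 := by
    rw [iteratedDeriv_zero]
    simp
  have hun : u (a n) = 1 := by
    have := hud n 0 (by have := hp n; omega)
    simpa using this
  have hv1 : iteratedDeriv 1 ((fun z => z - a n) * u) (a n) = 1 := by
    rw [iteratedDeriv_one]
    have h1 : HasDerivAt ((fun z : ℂ => z - a n) * u) (1 * u (a n) + (a n - a n) * deriv u (a n)) (a n) :=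
      ((hasDerivAt_id (a n)).sub_const (a n)).mul (hu (a n)).hasDerivAt
    rw [h1.deriv, hun]; ring
  refine ⟨?_, ?_, ?_⟩
  · intro m hm j hj
    rw [iteratedDeriv_mul hv.contDiff.contDiffAt hg.contDiff.contDiffAt]
    apply Finset.sum_eq_zero
    intro i hi
    rw [Finset.mem_range] at hi
    by_cases h : i < p m
    · rw [hvm m hm i h, mul_zero, zero_mul]
    · have : j - i = 0 := by omega
      rw [this, hgd m 0 (by have := hp m; omega), if_neg (by tauto), mul_zero]
  · intro j hj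
    rw [iteratedDeriv_mul hv.contDiff.contDiffAt hg.contDiff.contDiffAt]
    apply Finset.sum_eq_zero
    intro i hi
    rw [Finset.mem_range] at hi
    rcases Nat.eq_zero_or_pos i with rfl | h
    · rw [hv0, mul_zero, zero_mul]
    · rw [hgd n (j - i) (by omega), if_neg (by omega), mul_zero]
  · rw [iteratedDeriv_mul hv.contDiff.contDiffAt hg.contDiff.contDiffAt]
    rw [Finset.sum_eq_single 1]
    · rw [hv1, hgd n (p n - 1) (by have := hp n; omega), if_pos ⟨rfl, rfl⟩, Nat.choose_one_right,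
        mul_one]
      have := Nat.mul_factorial_pred (n := p n) (by have := hp n; omega)
      exact_mod_cast this
    · intro i hi hi1
      rw [Finset.mem_range] at hi
      rcases Nat.eq_zero_or_pos i with rfl | h
      · rw [hv0, mul_zero, zero_mul]
      · rw [hgd n (p n - i) (by omega), if_neg (by omega), mul_zero]
    · intro h
      exact absurd (Finset.mem_range.mpr (by have := hp n; omega)) h

/-- **main theorem** -/
theorem main {a : ℕ → ℂ} {p : ℕ → ℕ} (hp : ∀ n, 1 ≤ p n)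
    (h : ∀ y : Arr, ∃ g : ℂ → ℂ, Differentiable ℂ g ∧
      (∃ A > (0 : ℝ), ∃ B > (0 : ℝ), ∀ z, ‖g z‖ ≤ A * Real.exp (B * rho z)) ∧ Interp a p g y) :
    ∃ f : ℂ → ℂ, (Differentiable ℂ f ∧
      ∃ A > (0 : ℝ), ∃ B > (0 : ℝ), ∀ z, ‖f z‖ ≤ A * Real.exp (B * rho z)) ∧ (∃ z, f z ≠ 0) ∧
      (∀ n, ∀ k < p n, iteratedDeriv k f (a n) = 0) ∧
      ∃ ε > (0:ℝ), ∃ c > (0:ℝ), ∀ n,
        ε * Real.exp (-(c * rho (a n))) ≤
          ‖iteratedDeriv (p n) f (a n)‖ / ((p n).factorial : ℝ) := by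
  obtain ⟨C, hC, B, hB, hunif⟩ := uniform h
  choose u hu hub hud using fun n => unit_fun hunif n 0
  choose g hg hgb hgd using fun n => unit_fun hunif n (p n - 1)
  have hu1 : ∀ n, u n (a n) = 1 := by
    intro n
    have := hud n n 0 (by have := hp n; omega)
    simpa using this
  have hu0 : ∀ n m, m ≠ n → u n (a m) = 0 := by
    intro n m hm
    have := hud n m 0 (by have := hp m; omega)
    rw [if_neg (by tauto)] at this
    simpa using this
  set K := 2 * C * Real.exp (3 * B) with hK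
  have hKpos : 0 < K := by positivity
  set δ : ℕ → ℝ := fun n => (K * Real.exp (B * rho (a n)))⁻¹ with hδdef
  have hδ : ∀ n, 0 < δ n := fun n => by simp only [hδdef]; positivity
  have hδ1 : ∀ n, δ n ≤ 1 := by
    intro n
    simp only [hδdef]
    apply inv_le_one_of_one_le₀
    have h2 := hub n (a n)
    rw [hu1, norm_one] at h2
    have h3 : 1 ≤ Real.exp (3 * B) := Real.one_le_exp (by positivity)
    have h4 : 0 < C * Real.exp (B * rho (a n)) := by positivity
    rw [hK]
    nlinarith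
  have hsep : ∀ n m, n ≠ m → δ n ≤ dist (a m) (a n) := fun n m hnm =>
    separation hC hB (hu n) (hub n) (hu1 n) (hu0 n m hnm.symm)
  have hw := summable_of_sep hδ hδ1 hsep
  set w : ℕ → ℝ := fun n => δ n ^ 2 * ((2 + ‖a n‖) ^ 3)⁻¹ with hwdef
  set ε : ℕ → ℝ := fun n => δ n ^ 2 * ((2 + ‖a n‖) ^ 4)⁻¹ with hεdef
  have hε : ∀ n, 0 < ε n := fun n => by have := hδ n; simp only [hεdef]; positivity
  have hεw : ∀ n, ε n * (2 + ‖a n‖) = w n := by
    intro n
    simp only [hεdef, hwdef]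
    have : (0 : ℝ) < 2 + ‖a n‖ := by positivity
    field_simp
  set k : ℕ → ℂ → ℂ := fun n => ((fun z => z - a n) * u n) * g n with hk
  have hkd : ∀ n, Differentiable ℂ (k n) := by
    intro n
    have hl : Differentiable ℂ (fun z : ℂ => z - a n) := by fun_prop
    exact (hl.mul (hu n)).mul (hg n)
  have hkb : ∀ n z, ‖(ε n : ℂ) * k n z‖ ≤ w n * ((1 + ‖z‖) * C ^ 2 * Real.exp (2 * B * rho z)) := by
    intro n z
    have e1 : ‖k n z‖ ≤ ((2 + ‖a n‖) * (1 + ‖z‖)) * (C * Real.exp (B * rho z)) *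
        (C * Real.exp (B * rho z)) := by
      simp only [hk, Pi.mul_apply, norm_mul]
      have h1 : ‖z - a n‖ ≤ (2 + ‖a n‖) * (1 + ‖z‖) := by
        have := norm_sub_le z (a n)
        nlinarith [norm_nonneg z, norm_nonneg (a n), mul_nonneg (norm_nonneg z) (norm_nonneg (a n))]
      have h2 := hub n z
      have h3 := hgb n z
      gcongr
    have e2 : Real.exp (2 * B * rho z) = Real.exp (B * rho z) * Real.exp (B * rho z) := by
      rw [← Real.exp_add]; congr 1; ring
    rw [norm_mul, Complex.norm_real, Real.norm_eq_abs, abs_of_pos (hε n), e2, ← hεw]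
    calc ε n * ‖k n z‖ ≤ ε n * (((2 + ‖a n‖) * (1 + ‖z‖)) * (C * Real.exp (B * rho z)) *
        (C * Real.exp (B * rho z))) := by
          have := hε n
          gcongr
      _ = _ := by ring
  set W := ∑' n, w n with hW
  have hw0 : ∀ n, 0 ≤ w n := fun n => by simp only [hwdef]; positivity
  have hW0 : 0 ≤ W := tsum_nonneg hw0
  set f : ℂ → ℂ := fun z => ∑' n, (ε n : ℂ) * k n z with hf
  have hrad : ∀ (R : ℝ) (z : ℂ), ‖z‖ ≤ R → (1 + ‖z‖) * C ^ 2 * Real.exp (2 * B * rho z) ≤
      (1 + R) * C ^ 2 * Real.exp (2 * B * (R + R ^ 2)) := by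
    intro R z hz
    have hR : 0 ≤ R := (norm_nonneg z).trans hz
    have h1 : rho z ≤ R + R ^ 2 := by
      refine (rho_le z).trans ?_
      gcongr
    gcongr
  have hfd : Differentiable ℂ f := by
    intro z₀
    have h1 : DifferentiableOn ℂ f (ball 0 (‖z₀‖ + 1)) := by
      apply Complex.differentiableOn_tsum_of_summable_norm
        (u := fun n => w n * ((1 + (‖z₀‖ + 1)) * C ^ 2 * Real.exp (2 * B * ((‖z₀‖ + 1) + (‖z₀‖ + 1) ^ 2))))
        (hw.mul_right _) (fun n => ((hkd n).const_mul _).differentiableOn) isOpen_ball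
      intro n z hz
      rw [mem_ball_zero_iff] at hz
      refine (hkb n z).trans ?_
      exact mul_le_mul_of_nonneg_left (hrad _ z hz.le) (hw0 n)
    exact h1.differentiableAt (isOpen_ball.mem_nhds (by rw [mem_ball_zero_iff]; linarith))
  have hfb : ∀ z, ‖f z‖ ≤ (2 * W * C ^ 2 + 1) * Real.exp ((2 * B + 1) * rho z) := by
    intro z
    have h1 : ‖f z‖ ≤ W * ((1 + ‖z‖) * C ^ 2 * Real.exp (2 * B * rho z)) := by
      apply tsum_of_norm_bounded (hw.hasSum.mul_right _) (fun n => hkb n z)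
    have h2 : 1 + ‖z‖ ≤ 2 * Real.exp (rho z) := by
      have := norm_le_exp_rho z
      nlinarith [sq_nonneg (‖z‖ - 1), norm_nonneg z]
    have h3 : Real.exp ((2 * B + 1) * rho z) = Real.exp (rho z) * Real.exp (2 * B * rho z) := by
      rw [← Real.exp_add]; congr 1; ring
    have h4 : 0 < Real.exp ((2 * B + 1) * rho z) := Real.exp_pos _
    calc ‖f z‖ ≤ W * ((1 + ‖z‖) * C ^ 2 * Real.exp (2 * B * rho z)) := h1
      _ ≤ W * ((2 * Real.exp (rho z)) * C ^ 2 * Real.exp (2 * B * rho z)) := by gcongr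
      _ = (2 * W * C ^ 2) * Real.exp ((2 * B + 1) * rho z) := by rw [h3]; ring
      _ ≤ _ := by nlinarith
  -- derivatives
  have hblock := fun n => block (a := a) hp (hu n) (hg n) (hud n) (hgd n)
  have hder : ∀ m j, j ≤ p m → iteratedDeriv j f (a m) = (ε m : ℂ) * iteratedDeriv j (k m) (a m) := by
    intro m j hj
    have hunif2 : TendstoUniformlyOn (fun s : Finset ℕ => fun z => ∑ n ∈ s, (ε n : ℂ) * k n z) f atTop
        (sphere (a m) 1) := by
      apply tendstoUniformlyOn_tsum (u := fun n => w n * ((1 + (‖a m‖ + 1)) * C ^ 2 *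
        Real.exp (2 * B * ((‖a m‖ + 1) + (‖a m‖ + 1) ^ 2)))) (hw.mul_right _)
      intro n z hz
      rw [mem_sphere, dist_eq_norm] at hz
      have hz2 : ‖z‖ ≤ ‖a m‖ + 1 := by
        calc ‖z‖ = ‖a m + (z - a m)‖ := by congr 1; ring
          _ ≤ ‖a m‖ + ‖z - a m‖ := norm_add_le _ _
          _ = _ := by rw [hz]
      refine (hkb n z).trans ?_
      exact mul_le_mul_of_nonneg_left (hrad _ z hz2) (hw0 n)
    have hSd : ∀ s : Finset ℕ, Differentiable ℂ (fun z => ∑ n ∈ s, (ε n : ℂ) * k n z) := by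
      intro s
      exact Differentiable.fun_sum (fun n _ => (hkd n).const_mul _)
    have h1 := tendsto_iteratedDeriv hSd hfd (a m) j (l := atTop) (by
      intro η hη
      rw [Metric.tendstoUniformlyOn_iff] at hunif2
      filter_upwards [hunif2 η hη] with s hs z hz
      have := hs z hz
      rw [dist_comm, dist_eq_norm] at this
      exact this.le)
    have h2 : Tendsto (fun s : Finset ℕ => iteratedDeriv j (fun z => ∑ n ∈ s, (ε n : ℂ) * k n z) (a m))
        atTop (𝓝 ((ε m : ℂ) * iteratedDeriv j (k m) (a m))) := by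
      refine tendsto_const_nhds.congr' ?_
      filter_upwards [eventually_ge_atTop ({m} : Finset ℕ)] with s hs
      have hms : m ∈ s := hs (Finset.mem_singleton_self m)
      rw [iteratedDeriv_fun_sum (fun n _ => ((hkd n).const_mul _).contDiff.contDiffAt)]
      rw [Finset.sum_eq_single m]
      · rw [iteratedDeriv_const_mul_field]
      · intro n _ hnm
        rw [iteratedDeriv_const_mul_field, (hblock n).1 m hnm.symm j hj, mul_zero]
      · intro h; exact absurd hms h
    exact tendsto_nhds_unique h1 h2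
  have hlast : ∀ n, ‖iteratedDeriv (p n) f (a n)‖ / ((p n).factorial : ℝ) = ε n := by
    intro n
    rw [hder n (p n) le_rfl, (hblock n).2.2, norm_mul, Complex.norm_real, Real.norm_eq_abs,
      abs_of_pos (hε n)]
    have : (0 : ℝ) < (p n).factorial := by exact_mod_cast (p n).factorial_pos
    rw [Complex.norm_natCast]
    field_simp
  refine ⟨f, ⟨hfd, 2 * W * C ^ 2 + 1, by positivity, 2 * B + 1, by positivity, hfb⟩, ?_, ?_, ?_⟩
  · by_contra hcon
    push Not at hcon
    have h1 : f = fun _ => 0 := funext hcon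
    have h2 := hlast 0
    rw [h1] at h2
    have h3 : iteratedDeriv (p 0) (fun _ : ℂ => (0 : ℂ)) (a 0) = 0 := by
      rw [iteratedDeriv_const]; simp
    rw [h3, norm_zero, zero_div] at h2
    exact (hε 0).ne h2
  · intro n j hj
    rw [hder n j hj.le, (hblock n).2.1 j hj, mul_zero]
  · refine ⟨(K ^ 2)⁻¹ / 64, by positivity, 2 * B + 2, by positivity, fun n => ?_⟩
    rw [hlast]
    simp only [hεdef, hδdef]
    have h1 : (2 + ‖a n‖) ^ 4 ≤ 64 * Real.exp (2 * rho (a n)) := by
      have h2 := norm_le_exp_rho (a n)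
      have h3 : (2 + ‖a n‖) ^ 2 ≤ 8 * Real.exp (rho (a n)) := by
        nlinarith [sq_nonneg (‖a n‖ - 2), norm_nonneg (a n), sq_nonneg ‖a n‖]
      have h4 : Real.exp (2 * rho (a n)) = Real.exp (rho (a n)) ^ 2 := by
        rw [← Real.exp_nat_mul]; norm_num
      rw [h4]
      calc (2 + ‖a n‖) ^ 4 = ((2 + ‖a n‖) ^ 2) ^ 2 := by ring
        _ ≤ (8 * Real.exp (rho (a n))) ^ 2 := by gcongr
        _ = _ := by ring
    have h5 : ((64 * Real.exp (2 * rho (a n))))⁻¹ ≤ ((2 + ‖a n‖) ^ 4)⁻¹ :=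
      inv_anti₀ (by positivity) h1
    have h6 : Real.exp (-((2 * B + 2) * rho (a n))) =
        (Real.exp (B * rho (a n)) ^ 2)⁻¹ * (Real.exp (2 * rho (a n)))⁻¹ := by
      rw [← Real.exp_nat_mul, ← Real.exp_neg, ← Real.exp_neg, ← Real.exp_add]
      congr 1; push_cast; ring
    rw [h6]
    calc (K ^ 2)⁻¹ / 64 * ((Real.exp (B * rho (a n)) ^ 2)⁻¹ * (Real.exp (2 * rho (a n)))⁻¹)
        = ((K * Real.exp (B * rho (a n)))⁻¹) ^ 2 * (64 * Real.exp (2 * rho (a n)))⁻¹ := by
          clear_value K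
          generalize Real.exp (B * rho (a n)) = X
          generalize Real.exp (2 * rho (a n)) = Y
          rw [mul_inv, mul_inv, mul_pow, inv_pow, inv_pow]; ring
      _ ≤ _ := by gcongr

end Pool.Agent.Q108.UI
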