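import Mathlib
import Pool.Agent.Helper114.MontelSol

/-!
Uniform interpolation: if every bounded array can be interpolated in the algebra of the Fourier
transforms of distributions with compact support, then the unit arrays can be interpolated with
uniform bounds (Baire category and normal families).
-/

set_option autoImplicit false
open Filter Topology Metric Set

namespace Pool.Agent.Q108.UI

/-- the weight -/
noncomputable def rho (z : ℂ) : ℝ := |z.im| + Real.log (1 + ‖z‖ ^ 2)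

lemma rho_nonneg (z : ℂ) : 0 ≤ rho z := by
  unfold rho
  have : 0 ≤ Real.log (1 + ‖z‖ ^ 2) := Real.log_nonneg (by nlinarith [sq_nonneg ‖z‖])
  positivity

lemma rho_le (z : ℂ) : rho z ≤ ‖z‖ + ‖z‖ ^ 2 := by
  unfold rho
  have h1 := Complex.abs_im_le_norm z
  have h2 := Real.log_le_sub_one_of_pos (x := 1 + ‖z‖ ^ 2) (by positivity)
  linarith

lemma norm_le_exp_rho (z : ℂ) : 1 + ‖z‖ ^ 2 ≤ Real.exp (rho z) := by
  unfold rho
  rw [Real.exp_add, Real.exp_log (by positivity)]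
  have h1 := Real.one_le_exp (abs_nonneg z.im)
  nlinarith [sq_nonneg ‖z‖]

lemma rho_near {z w : ℂ} (h : ‖w - z‖ ≤ 1) : rho w ≤ rho z + 3 := by
  unfold rho
  have h1 : |w.im| ≤ |z.im| + 1 := by
    have h2 := Complex.abs_im_le_norm (w - z)
    rw [Complex.sub_im] at h2
    have h3 := abs_sub_abs_le_abs_sub w.im z.im
    linarith
  have h4 : ‖w‖ ≤ ‖z‖ + 1 := by
    calc ‖w‖ = ‖z + (w - z)‖ := by congr 1; ring
      _ ≤ ‖z‖ + ‖w - z‖ := norm_add_le _ _
      _ ≤ _ := by linarith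
  have h5 : 1 + ‖w‖ ^ 2 ≤ 3 * (1 + ‖z‖ ^ 2) := by
    have h6 : ‖w‖ ^ 2 ≤ (‖z‖ + 1) ^ 2 := by gcongr
    nlinarith [sq_nonneg (‖z‖ - 1)]
  have h7 : Real.log (1 + ‖w‖ ^ 2) ≤ Real.log (3 * (1 + ‖z‖ ^ 2)) :=
    Real.log_le_log (by positivity) h5
  rw [Real.log_mul (by norm_num) (by positivity)] at h7
  have h8 : Real.log 3 ≤ 2 := by
    have := Real.log_le_sub_one_of_pos (x := 3) (by norm_num)
    linarith
  linarith

/-- continuity of the derivatives in the topology of uniform convergence on circles -/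
lemma tendsto_iteratedDeriv {ι : Type*} {l : Filter ι} {F : ι → ℂ → ℂ} {f : ℂ → ℂ}
    (hF : ∀ i, Differentiable ℂ (F i)) (hf : Differentiable ℂ f) (a : ℂ) (k : ℕ)
    (h : ∀ ε > 0, ∀ᶠ i in l, ∀ z ∈ sphere a 1, ‖F i z - f z‖ ≤ ε) :
    Tendsto (fun i => iteratedDeriv k (F i) a) l (𝓝 (iteratedDeriv k f a)) := by
  rw [Metric.tendsto_nhds]
  intro ε hε
  have hk : (0 : ℝ) < k.factorial := by exact_mod_cast k.factorial_pos
  filter_upwards [h (ε / (2 * k.factorial)) (by positivity)] with i hi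
  have h1 := Complex.norm_iteratedDeriv_le_of_forall_mem_sphere_norm_le (f := F i - f) (c := a)
    (R := 1) (C := ε / (2 * k.factorial)) k one_pos ((hF i).sub hf).diffContOnCl hi
  rw [iteratedDeriv_sub (hF i).contDiff.contDiffAt hf.contDiff.contDiffAt] at h1
  rw [dist_eq_norm]
  refine h1.trans_lt ?_
  rw [one_pow, div_one]
  have : (k.factorial : ℝ) * (ε / (2 * k.factorial)) = ε / 2 := by field_simp
  rw [this]; linarith

/-- normal families: a locally bounded sequence of entire functions -/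
lemma exists_limit (F : ℕ → ℂ → ℂ) (hF : ∀ n, Differentiable ℂ (F n)) (H : ℝ → ℝ)
    (hM : ∀ n z, ∀ R, ‖z‖ ≤ R → ‖F n z‖ ≤ H R) (𝒰 : Ultrafilter ℕ) :
    ∃ Φ : ℂ → ℂ, Differentiable ℂ Φ ∧ (∀ z, Tendsto (fun n => F n z) 𝒰 (𝓝 (Φ z))) ∧
      ∀ a : ℂ, ∀ ε > 0, ∀ᶠ n in (𝒰 : Filter ℕ), ∀ z ∈ sphere a 1, ‖F n z - Φ z‖ ≤ ε := by
  have key : ∀ R : ℝ, ∃ Φ : ℂ → ℂ, DifferentiableOn ℂ Φ (ball 0 R) ∧
      TendstoLocallyUniformlyOn F Φ (𝒰 : Filter ℕ) (ball 0 R) := by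
    intro R
    exact Pool.Agent.Helper114.Montel.montel isOpen_ball F (fun n => (hF n).differentiableOn)
      (H R) (fun n z hz => hM n z R (by rw [mem_ball_zero_iff] at hz; exact hz.le)) 𝒰
  choose Ψ hΨd hΨ using key
  have hpt : ∀ R z, ‖z‖ < R → Tendsto (fun n => F n z) 𝒰 (𝓝 (Ψ R z)) := by
    intro R z hz
    exact (hΨ R).tendsto_at (by rwa [mem_ball_zero_iff])
  have heq : ∀ R z, ‖z‖ < R → Ψ R z = Ψ (‖z‖ + 1) z := by
    intro R z hz
    exact tendsto_nhds_unique (hpt R z hz) (hpt _ z (by linarith))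
  refine ⟨fun z => Ψ (‖z‖ + 1) z, ?_, fun z => hpt _ z (by linarith), ?_⟩
  · intro z
    have h1 : DifferentiableAt ℂ (Ψ (‖z‖ + 1)) z :=
      (hΨd (‖z‖ + 1)).differentiableAt (isOpen_ball.mem_nhds (by rw [mem_ball_zero_iff]; linarith))
    refine h1.congr_of_eventuallyEq ?_
    have h2 : ball (0 : ℂ) (‖z‖ + 1) ∈ 𝓝 z := isOpen_ball.mem_nhds (by rw [mem_ball_zero_iff]; linarith)
    filter_upwards [h2] with w hw
    rw [mem_ball_zero_iff] at hw
    exact (heq _ w hw).symm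
  · intro a ε hε
    have hsub : sphere a 1 ⊆ ball (0 : ℂ) (‖a‖ + 2) := by
      intro z hz
      rw [mem_sphere, dist_eq_norm] at hz
      rw [mem_ball_zero_iff]
      calc ‖z‖ = ‖a + (z - a)‖ := by congr 1; ring
        _ ≤ ‖a‖ + ‖z - a‖ := norm_add_le _ _
        _ < _ := by rw [hz]; linarith
    have hu : TendstoUniformlyOn F (Ψ (‖a‖ + 2)) (𝒰 : Filter ℕ) (sphere a 1) :=
      (tendstoLocallyUniformlyOn_iff_tendstoUniformlyOn_of_compact (isCompact_sphere a 1)).mp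
        ((hΨ (‖a‖ + 2)).mono hsub)
    rw [Metric.tendstoUniformlyOn_iff] at hu
    filter_upwards [hu ε hε] with n hn z hz
    have h1 := hn z hz
    have h2 := hsub hz
    rw [mem_ball_zero_iff] at h2
    rw [← heq _ z h2, ← dist_eq_norm, dist_comm]
    exact h1.le

/-- the entire function `g` interpolates the array `y` -/
def Interp (a : ℕ → ℂ) (p : ℕ → ℕ) (g : ℂ → ℂ) (y : ℕ × ℕ → ℂ) : Prop :=
  ∀ n, ∀ κ < p n, iteratedDeriv κ g (a n) / (κ.factorial : ℂ) = y (n, κ)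

noncomputable abbrev Arr := lp (fun _ : ℕ × ℕ => ℂ) ⊤

/-- **uniform interpolation** -/
theorem uniform {a : ℕ → ℂ} {p : ℕ → ℕ}
    (h : ∀ y : Arr, ∃ g : ℂ → ℂ, Differentiable ℂ g ∧
      (∃ A > (0 : ℝ), ∃ B > (0 : ℝ), ∀ z, ‖g z‖ ≤ A * Real.exp (B * rho z)) ∧ Interp a p g y) :
    ∃ C > (0 : ℝ), ∃ B > (0 : ℝ), ∀ y : Arr, ‖y‖ ≤ 1 → ∃ g : ℂ → ℂ, Differentiable ℂ g ∧
      (∀ z, ‖g z‖ ≤ C * Real.exp (B * rho z)) ∧ Interp a p g y := by
  let E : ℕ → Set Arr := fun N => {y | ∃ g : ℂ → ℂ, Differentiable ℂ g ∧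
    (∀ z, ‖g z‖ ≤ N * Real.exp (N * rho z)) ∧ Interp a p g y}
  have hU : ⋃ N, E N = univ := by
    rw [eq_univ_iff_forall]
    intro y
    obtain ⟨g, hg, ⟨A, hA, B, hB, hb⟩, hi⟩ := h y
    obtain ⟨N, hN⟩ := exists_nat_ge (max A B)
    rw [mem_iUnion]
    refine ⟨N, g, hg, fun z => (hb z).trans ?_, hi⟩
    have h1 : A ≤ N := (le_max_left _ _).trans hN
    have h2 : B ≤ N := (le_max_right _ _).trans hN
    have h3 := rho_nonneg z
    gcongr
  have hcl : ∀ N, IsClosed (E N) := by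
    intro N
    rw [← isSeqClosed_iff_isClosed]
    intro y y₀ hy hlim
    choose g hg hgb hgi using hy
    let 𝒰 : Ultrafilter ℕ := hyperfilter ℕ
    have h𝒰 : (𝒰 : Filter ℕ) ≤ atTop := Nat.hyperfilter_le_atTop
    obtain ⟨Φ, hΦ, hpt, hunif⟩ := exists_limit g hg
      (fun R => N * Real.exp (N * (|R| + |R| ^ 2))) (fun n z R hz => by
        refine (hgb n z).trans ?_
        have h1 := rho_le z
        have h2 : ‖z‖ ≤ |R| := hz.trans (le_abs_self R)
        have h3 : ‖z‖ + ‖z‖ ^ 2 ≤ |R| + |R| ^ 2 := by gcongr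
        have h4 : rho z ≤ |R| + |R| ^ 2 := h1.trans h3
        gcongr) 𝒰
    refine ⟨Φ, hΦ, fun z => ?_, fun n κ hκ => ?_⟩
    · exact le_of_tendsto (hpt z).norm (Eventually.of_forall fun j => hgb j z)
    · have h1 := tendsto_iteratedDeriv hg hΦ (a n) κ (hunif (a n))
      have h2 : Tendsto (fun j => y j (n, κ)) 𝒰 (𝓝 (y₀ (n, κ))) := by
        have h3 : Tendsto (fun j => y j (n, κ)) atTop (𝓝 (y₀ (n, κ))) := by
          rw [tendsto_iff_norm_sub_tendsto_zero] at hlim ⊢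
          refine squeeze_zero (fun j => norm_nonneg _) (fun j => ?_) hlim
          exact lp.norm_apply_le_norm (by simp) (y j - y₀) (n, κ)
        exact h3.mono_left h𝒰
      have h4 : Tendsto (fun j => y j (n, κ)) 𝒰
          (𝓝 (iteratedDeriv κ Φ (a n) / (κ.factorial : ℂ))) := by
        refine (h1.div_const _).congr fun j => ?_
        exact hgi j n κ hκ
      exact tendsto_nhds_unique h4 h2
  obtain ⟨N, hN⟩ := nonempty_interior_of_iUnion_of_closed hcl hU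
  obtain ⟨y₀, hy₀⟩ := hN
  obtain ⟨r, hr, hball⟩ := Metric.isOpen_iff.mp isOpen_interior y₀ hy₀
  have hball' : ∀ y, dist y y₀ < r → y ∈ E N := fun y hy => interior_subset (hball hy)
  obtain ⟨g₀, hg₀, hb₀, hi₀⟩ := hball' y₀ (by simpa using hr)
  refine ⟨4 * (N + 1) / r, by positivity, N + 1, by positivity, ?_⟩
  intro y hy
  obtain ⟨g₁, hg₁, hb₁, hi₁⟩ := hball' (y₀ + ((r / 2 : ℝ) : ℂ) • y) (by
    rw [dist_eq_norm, add_sub_cancel_left, norm_smul, Complex.norm_real, Real.norm_eq_abs,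
      abs_of_pos (by positivity)]
    nlinarith)
  have hrc : ((r / 2 : ℝ) : ℂ) ≠ 0 := by
    have : (r / 2 : ℝ) ≠ 0 := by positivity
    exact_mod_cast this
  refine ⟨fun z => (((r / 2 : ℝ) : ℂ))⁻¹ * (g₁ z - g₀ z), ?_, ?_, ?_⟩
  · exact (hg₁.sub hg₀).const_mul _
  · intro z
    rw [norm_mul, norm_inv, Complex.norm_real, Real.norm_eq_abs, abs_of_pos (by positivity)]
    have h1 : ‖g₁ z - g₀ z‖ ≤ 2 * ((N + 1) * Real.exp ((N + 1) * rho z)) := by
      have h2 := norm_sub_le (g₁ z) (g₀ z)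
      have h3 := hb₁ z
      have h4 := hb₀ z
      have h5 : (N : ℝ) * Real.exp (N * rho z) ≤ (N + 1) * Real.exp ((N + 1) * rho z) := by
        have := rho_nonneg z
        have h6 : (N : ℝ) ≤ N + 1 := by linarith
        gcongr
      linarith
    calc (r / 2)⁻¹ * ‖g₁ z - g₀ z‖ ≤ (r / 2)⁻¹ * (2 * ((N + 1) * Real.exp ((N + 1) * rho z))) := by
          gcongr
      _ = _ := by field_simp; ring
  · intro n κ hκ
    have e : (fun z => (((r / 2 : ℝ) : ℂ))⁻¹ * (g₁ z - g₀ z)) =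
        fun z => (((r / 2 : ℝ) : ℂ))⁻¹ * ((g₁ - g₀) z) := rfl
    rw [e, iteratedDeriv_const_mul_field,
      iteratedDeriv_sub hg₁.contDiff.contDiffAt hg₀.contDiff.contDiffAt]
    have h1 := hi₁ n κ hκ
    have h0 := hi₀ n κ hκ
    have h2 : (y₀ + ((r / 2 : ℝ) : ℂ) • y : Arr) (n, κ) = y₀ (n, κ) + ((r / 2 : ℝ) : ℂ) * y (n, κ) := rfl
    rw [h2] at h1
    have h3 : iteratedDeriv κ g₁ (a n) / (κ.factorial : ℂ) - iteratedDeriv κ g₀ (a n) / (κ.factorial : ℂ) =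
        ((r / 2 : ℝ) : ℂ) * y (n, κ) := by rw [h1, h0]; ring
    rw [mul_div_assoc, sub_div, h3, inv_mul_cancel_left₀ hrc]

end Pool.Agent.Q108.UI
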